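import Pool.Agent.Helper27.BE.Jennings
import Pool.Agent.Helper27.BE.Univ
import Pool.Agent.Helper19.BE.Faith

/-!
# DC-1: conjugation on the group algebra of a normal subgroup, spaces of functions

`N` is a normal subgroup of the finite group `G`, `A` the group algebra of `N` over `ZMod p`.
`cj N g` is the action of `g` on `A` by conjugation. `Fd N Θ H d` is the space of functions on `G` spanned by
`u ↦ ξ (Θ (h (y u y⁻¹)))`, `ξ` a linear form killing `Fil d`, `h ∈ H`, `y ∈ G`; `Hon N K` is the space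
spanned by the functions `u ↦ ζ (cj u t)`, `ζ` a linear form killing `Fil K`.
-/

set_option autoImplicit false
set_option linter.unusedSectionVars false

namespace Pool.Agent.Helper43.DC

open Finset Pool.Agent.Helper27.BE
open Pool.Agent.Helper76.BE (Fil_zero Fil_anti Fil_mul)

section
variable {p : ℕ} [Fact p.Prime] {G : Type} [Group G] (N : Subgroup G) [N.Normal]

/-- the action of `g` on the group algebra by conjugation -/
noncomputable def cj (g : G) : MonoidAlgebra (ZMod p) N →ₐ[ZMod p] MonoidAlgebra (ZMod p) N :=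
  MonoidAlgebra.mapDomainAlgHom (ZMod p) (ZMod p) (MulAut.conjNormal g : N ≃* N).toMonoidHom

theorem cj_of (g : G) (n : N) : cj (p := p) N g (MonoidAlgebra.of (ZMod p) N n) =
    MonoidAlgebra.of (ZMod p) N (MulAut.conjNormal g n) := by
  simp [cj]

theorem cj_mul (g h : G) (a : MonoidAlgebra (ZMod p) N) : cj N (g * h) a = cj N g (cj N h a) := by
  induction a using MonoidAlgebra.induction_on with
  | of n => rw [cj_of, cj_of, cj_of, map_mul]; rfl
  | add x y hx hy => rw [map_add, map_add, map_add, hx, hy]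
  | smul r x hx => rw [map_smul, map_smul, map_smul, hx]

theorem cj_dlt (g : G) (n : N) : cj (p := p) N g (dlt p N n) = dlt p N (MulAut.conjNormal g n) := by
  unfold dlt
  rw [map_sub, cj_of, map_one]

theorem cj_Fil (g : G) (d : ℕ) {a : MonoidAlgebra (ZMod p) N} (ha : a ∈ Fil p N d) :
    cj N g a ∈ Fil p N d := by
  by_cases hd : d = 0
  · subst hd; rw [Fil_zero]; trivial
  · have h1 : (aug p N).map (cj (p := p) N g).toLinearMap ≤ aug p N := by
      rw [aug, Submodule.map_span, Submodule.span_le]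
      rintro _ ⟨_, ⟨n, rfl⟩, rfl⟩
      change cj N g (dlt p N n) ∈ _
      rw [cj_dlt]
      exact Submodule.subset_span ⟨_, rfl⟩
    have h2 : (Fil p N d).map (cj (p := p) N g).toLinearMap ≤ Fil p N d := by
      unfold Fil
      rw [if_neg hd, Submodule.map_pow]
      exact pow_le_pow_left' h1 d
    exact h2 ⟨a, ha, rfl⟩

variable (p) in
/-- the dimension of the quotient of the group algebra by `Fil d` -/
noncomputable def dimQ (d : ℕ) : ℕ := Module.finrank (ZMod p) (MonoidAlgebra (ZMod p) N ⧸ Fil p N d)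

/-- coordinates modulo `Fil d` -/
theorem exists_coord [Finite N] (d : ℕ) :
    ∃ (ξ : Fin (dimQ p N d) → (MonoidAlgebra (ZMod p) N →ₗ[ZMod p] ZMod p))
      (e : Fin (dimQ p N d) → MonoidAlgebra (ZMod p) N),
      (∀ i, ∀ a ∈ Fil p N d, ξ i a = 0) ∧ ∀ s, s - ∑ i, ξ i s • e i ∈ Fil p N d := by
  have hfinA : Module.Finite (ZMod p) (MonoidAlgebra (ZMod p) N) :=
    Module.Finite.of_basis (MonoidAlgebra.basis N (ZMod p))
  let b := Module.finBasis (ZMod p) (MonoidAlgebra (ZMod p) N ⧸ Fil p N d)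
  choose e he using fun i => Submodule.mkQ_surjective (Fil p N d) (b i)
  refine ⟨fun i => (b.coord i).comp (Fil p N d).mkQ, e, ?_, ?_⟩
  · intro i a ha
    have h1 : (Fil p N d).mkQ a = 0 := by
      rwa [Submodule.mkQ_apply, Submodule.Quotient.mk_eq_zero]
    rw [LinearMap.comp_apply, h1, map_zero]
  · intro s
    have h1 : (Fil p N d).mkQ (s - ∑ i, b.coord i ((Fil p N d).mkQ s) • e i) = 0 := by
      rw [map_sub, map_sum, sub_eq_zero]
      conv_lhs => rw [← b.sum_repr ((Fil p N d).mkQ s)]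
      refine Finset.sum_congr rfl fun i _ => ?_
      rw [map_smul, he]
      rfl
    rw [Submodule.mkQ_apply, Submodule.Quotient.mk_eq_zero] at h1
    exact h1

/-- translation on the left -/
def Lf (p : ℕ) {G : Type} [Group G] (h : G) : (G → ZMod p) →ₗ[ZMod p] (G → ZMod p) :=
  LinearMap.funLeft (ZMod p) (ZMod p) (fun u => h * u)

/-- translation on the right -/
def Rf (p : ℕ) {G : Type} [Group G] (w : G) : (G → ZMod p) →ₗ[ZMod p] (G → ZMod p) :=
  LinearMap.funLeft (ZMod p) (ZMod p) (fun u => u * w)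

/-- conjugation -/
def Cf (p : ℕ) {G : Type} [Group G] (y : G) : (G → ZMod p) →ₗ[ZMod p] (G → ZMod p) :=
  LinearMap.funLeft (ZMod p) (ZMod p) (fun u => y * u * y⁻¹)

omit [Fact p.Prime] in
theorem Lf_apply (h : G) (f : G → ZMod p) (u : G) : Lf p h f u = f (h * u) := rfl
omit [Fact p.Prime] in
theorem Rf_apply (h : G) (f : G → ZMod p) (u : G) : Rf p h f u = f (u * h) := rfl
omit [Fact p.Prime] in
theorem Cf_apply (y : G) (f : G → ZMod p) (u : G) : Cf p y f u = f (y * u * y⁻¹) := rfl

/-- the generating functions of `Fd` -/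
def gen (Θ : G → MonoidAlgebra (ZMod p) N) (H : Subgroup G) (d : ℕ) : Set (G → ZMod p) :=
  {φ | ∃ ξ : MonoidAlgebra (ZMod p) N →ₗ[ZMod p] ZMod p, (∀ a ∈ Fil p N d, ξ a = 0) ∧
    ∃ h ∈ H, ∃ y : G, φ = fun u => ξ (Θ (h * (y * u * y⁻¹)))}

/-- the space of functions -/
def Fd (Θ : G → MonoidAlgebra (ZMod p) N) (H : Subgroup G) (d : ℕ) : Submodule (ZMod p) (G → ZMod p) :=
  Submodule.span (ZMod p) (gen N Θ H d)

variable (p) in
/-- the generating functions of `Hon` -/
def genH (K : ℕ) : Set (G → ZMod p) :=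
  {φ | ∃ ζ : MonoidAlgebra (ZMod p) N →ₗ[ZMod p] ZMod p, (∀ a ∈ Fil p N K, ζ a = 0) ∧
    ∃ t : MonoidAlgebra (ZMod p) N, φ = fun u => ζ (cj N u t)}

variable (p) in
/-- the functions `u ↦ ζ (cj u t)` -/
def Hon (K : ℕ) : Submodule (ZMod p) (G → ZMod p) := Submodule.span (ZMod p) (genH p N K)

theorem conj_mem {N H : Subgroup G} (hN : ∀ a b : G, a * b * a⁻¹ * b⁻¹ ∈ N) (hNH : N ≤ H) {h : G}
    (hh : h ∈ H) (y : G) : y * h * y⁻¹ ∈ H := by
  have h1 := H.mul_mem (hNH (hN y h)) hh
  rwa [inv_mul_cancel_right] at h1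

theorem Lf_Fd {Θ : G → MonoidAlgebra (ZMod p) N} {H : Subgroup G} {d : ℕ}
    (hN : ∀ a b : G, a * b * a⁻¹ * b⁻¹ ∈ N) (hNH : N ≤ H) {w : G} (hw : w ∈ H)
    {f : G → ZMod p} (hf : f ∈ Fd N Θ H d) : Lf p w f ∈ Fd N Θ H d := by
  induction hf using Submodule.span_induction with
  | mem x hx =>
    obtain ⟨ξ, hξ, h, hh, y, rfl⟩ := hx
    refine Submodule.subset_span ⟨ξ, hξ, h * (y * w * y⁻¹), H.mul_mem hh (conj_mem hN hNH hw y), y, ?_⟩
    funext u
    rw [Lf_apply]
    congr 2
    group
  | zero => rw [map_zero]; exact Submodule.zero_mem _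
  | add x y _ _ hx hy => rw [map_add]; exact Submodule.add_mem _ hx hy
  | smul a x _ hx => rw [map_smul]; exact Submodule.smul_mem _ _ hx

theorem Cf_Fd {Θ : G → MonoidAlgebra (ZMod p) N} {H : Subgroup G} {d : ℕ} (w : G)
    {f : G → ZMod p} (hf : f ∈ Fd N Θ H d) : Cf p w f ∈ Fd N Θ H d := by
  induction hf using Submodule.span_induction with
  | mem x hx =>
    obtain ⟨ξ, hξ, h, hh, y, rfl⟩ := hx
    refine Submodule.subset_span ⟨ξ, hξ, h, hh, y * w, ?_⟩
    funext u
    rw [Cf_apply]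
    congr 2
    group
  | zero => rw [map_zero]; exact Submodule.zero_mem _
  | add x y _ _ hx hy => rw [map_add]; exact Submodule.add_mem _ hx hy
  | smul a x _ hx => rw [map_smul]; exact Submodule.smul_mem _ _ hx

omit [Fact p.Prime] in
theorem Rf_eq (w : G) (f : G → ZMod p) : Rf p w f = Cf p w⁻¹ (Lf p w f) := by
  funext u
  rw [Rf_apply, Cf_apply, Lf_apply]
  congr 1
  group

theorem Rf_Fd {Θ : G → MonoidAlgebra (ZMod p) N} {H : Subgroup G} {d : ℕ}
    (hN : ∀ a b : G, a * b * a⁻¹ * b⁻¹ ∈ N) (hNH : N ≤ H) {w : G} (hw : w ∈ H)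
    {f : G → ZMod p} (hf : f ∈ Fd N Θ H d) : Rf p w f ∈ Fd N Θ H d := by
  rw [Rf_eq]
  exact Cf_Fd N _ (Lf_Fd N hN hNH hw hf)

theorem Lf_Hon {K : ℕ} (w : G) {f : G → ZMod p} (hf : f ∈ Hon p N K) : Lf p w f ∈ Hon p N K := by
  induction hf using Submodule.span_induction with
  | mem x hx =>
    obtain ⟨ζ, hζ, t, rfl⟩ := hx
    refine Submodule.subset_span ⟨ζ.comp (cj N w).toLinearMap, fun a ha => hζ _ (cj_Fil N w K ha), t, ?_⟩
    funext u
    rw [Lf_apply, cj_mul]
    rfl
  | zero => rw [map_zero]; exact Submodule.zero_mem _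
  | add x y _ _ hx hy => rw [map_add]; exact Submodule.add_mem _ hx hy
  | smul a x _ hx => rw [map_smul]; exact Submodule.smul_mem _ _ hx

theorem Rf_Hon {K : ℕ} (w : G) {f : G → ZMod p} (hf : f ∈ Hon p N K) : Rf p w f ∈ Hon p N K := by
  induction hf using Submodule.span_induction with
  | mem x hx =>
    obtain ⟨ζ, hζ, t, rfl⟩ := hx
    refine Submodule.subset_span ⟨ζ, hζ, cj N w t, ?_⟩
    funext u
    rw [Rf_apply, cj_mul]
  | zero => rw [map_zero]; exact Submodule.zero_mem _
  | add x y _ _ hx hy => rw [map_add]; exact Submodule.add_mem _ hx hy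
  | smul a x _ hx => rw [map_smul]; exact Submodule.smul_mem _ _ hx

omit [Fact p.Prime] in
theorem Cf_eq (w : G) (f : G → ZMod p) : Cf p w f = Lf p w (Rf p w⁻¹ f) := by
  funext u
  rw [Cf_apply, Lf_apply, Rf_apply]

theorem Cf_Hon {K : ℕ} (w : G) {f : G → ZMod p} (hf : f ∈ Hon p N K) : Cf p w f ∈ Hon p N K := by
  rw [Cf_eq]
  exact Lf_Hon N _ (Rf_Hon N _ hf)

/-! ### Products -/

/-- an operator given by substitution respects products of spaces -/
theorem mul_stable {S T : Submodule (ZMod p) (G → ZMod p)} (s : G → G)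
    (hS : ∀ f ∈ S, LinearMap.funLeft (ZMod p) (ZMod p) s f ∈ S)
    (hT : ∀ f ∈ T, LinearMap.funLeft (ZMod p) (ZMod p) s f ∈ T) {f : G → ZMod p} (hf : f ∈ S * T) :
    LinearMap.funLeft (ZMod p) (ZMod p) s f ∈ S * T := by
  induction hf using Submodule.mul_induction_on' with
  | mem_mul_mem m hm n hn =>
    exact Submodule.mul_mem_mul (hS m hm) (hT n hn)
  | add x hx y hy h1 h2 => rw [map_add]; exact Submodule.add_mem _ h1 h2

/-- the dimension of a product of spaces -/
theorem finrank_mul_le [Finite G] (S T : Submodule (ZMod p) (G → ZMod p)) :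
    Module.finrank (ZMod p) (S * T : Submodule (ZMod p) (G → ZMod p)) ≤
      Module.finrank (ZMod p) S * Module.finrank (ZMod p) T := by
  have := Fintype.ofFinite G
  rw [← Submodule.mulMap_range, ← Module.finrank_tensorProduct (R := ZMod p)]
  exact LinearMap.finrank_range_le _

/-- the dimension of `Hon` -/
theorem finrank_Hon [Finite G] (K : ℕ) :
    Module.finrank (ZMod p) (Hon p N K) ≤ dimQ p N K ^ 2 := by
  have := Fintype.ofFinite G
  obtain ⟨ξ, e, h1, h2⟩ := exists_coord (p := p) N K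
  let F : Fin (dimQ p N K) × Fin (dimQ p N K) → (G → ZMod p) := fun kl u => ξ kl.1 (cj N u (e kl.2))
  have h3 : Hon p N K ≤ Submodule.span (ZMod p) (Set.range F) := by
    rw [Hon, Submodule.span_le]
    rintro _ ⟨ζ, hζ, t, rfl⟩
    have h4 : (fun u => ζ (cj N u t)) = ∑ kl : Fin (dimQ p N K) × Fin (dimQ p N K),
        (ζ (e kl.1) * ξ kl.2 t) • F kl := by
      funext u
      have h5 := hζ _ (h2 (cj N u t))
      rw [map_sub, map_sum, sub_eq_zero] at h5
      rw [h5, Finset.sum_apply, Fintype.sum_prod_type]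
      refine Finset.sum_congr rfl fun k _ => ?_
      have h6 := h1 k _ (cj_Fil N u K (h2 t))
      rw [map_sub, map_sub, map_sum, map_sum, sub_eq_zero] at h6
      rw [map_smul, h6, smul_eq_mul, Finset.sum_mul]
      refine Finset.sum_congr rfl fun l _ => ?_
      rw [map_smul, map_smul, Pi.smul_apply, smul_eq_mul, smul_eq_mul]
      ring
    change (fun u => ζ (cj N u t)) ∈ _
    rw [h4]
    exact Submodule.sum_mem _ fun kl _ => Submodule.smul_mem _ _ (Submodule.subset_span ⟨kl, rfl⟩)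
  refine (Submodule.finrank_mono h3).trans ((finrank_range_le_card F).trans ?_)
  rw [Fintype.card_prod, Fintype.card_fin, sq]

/-! ### The key lemma -/

/-- The key lemma: modulo products with lower functions, the functions of `Fd` are invariant under
right translations by elements of `N`. -/
theorem key [Finite G] {Θ : G → MonoidAlgebra (ZMod p) N} {H : Subgroup G} {d K : ℕ} (hdK : d + 1 ≤ K)
    (hΘ : ∀ (b : N) (u : G), Θ (b * u) = MonoidAlgebra.of (ZMod p) N b * Θ u) {w : G} (hw : w ∈ N)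
    {f : G → ZMod p} (hf : f ∈ Fd N Θ H (d + 1)) : Rf p w f - f ∈ Fd N Θ H d * Hon p N K := by
  induction hf using Submodule.span_induction with
  | mem x hx =>
    obtain ⟨ξ, hξ, h, hh, y, rfl⟩ := hx
    obtain ⟨η, e, h1, h2⟩ := exists_coord (p := p) N d
    set w' : N := ⟨w, hw⟩ with hw'
    have h3 : Rf p w (fun u => ξ (Θ (h * (y * u * y⁻¹)))) - (fun u => ξ (Θ (h * (y * u * y⁻¹)))) =
        ∑ k, (fun u => η k (Θ (h * (y * u * y⁻¹)))) *
          (fun u => ξ (cj N (h * y) (cj N u (dlt p N w')) * e k)) := by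
      funext u
      rw [Pi.sub_apply, Rf_apply, Finset.sum_apply]
      have h4 : h * (y * (u * w) * y⁻¹) = ((MulAut.conjNormal (h * y * u) w' : N) : G) *
          (h * (y * u * y⁻¹)) := by
        rw [MulAut.conjNormal_apply, hw']
        group
      rw [h4, hΘ, ← map_sub, ← sub_one_mul]
      have h5 : MonoidAlgebra.of (ZMod p) N (MulAut.conjNormal (h * y * u) w') - 1 =
          cj N (h * y) (cj N u (dlt p N w')) := by
        rw [← cj_mul, cj_dlt, dlt]
      rw [h5]
      set a := cj N (h * y) (cj N u (dlt p N w')) with ha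
      have ha1 : a ∈ Fil p N 1 := by
        rw [ha]
        exact cj_Fil N _ _ (cj_Fil N _ _ (dlt_mem_one w'))
      set s := Θ (h * (y * u * y⁻¹)) with hs
      have h6 : a * (s - ∑ i, η i s • e i) ∈ Fil p N (d + 1) := by
        have := Fil_mul (p := p) (B := N) 1 d (Submodule.mul_mem_mul ha1 (h2 s))
        rwa [add_comm] at this
      have h7 := hξ _ h6
      rw [mul_sub, map_sub, sub_eq_zero, Finset.mul_sum, map_sum] at h7
      rw [h7]
      refine Finset.sum_congr rfl fun k _ => ?_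
      rw [mul_smul_comm, map_smul, Pi.mul_apply, smul_eq_mul]
    rw [h3]
    refine Submodule.sum_mem _ fun k _ => Submodule.mul_mem_mul ?_ ?_
    · exact Submodule.subset_span ⟨η k, h1 k, h, hh, y, rfl⟩
    · refine Submodule.subset_span ⟨(ξ.comp (LinearMap.mulRight (ZMod p) (e k))).comp
        (cj N (h * y)).toLinearMap, ?_, dlt p N w', rfl⟩
      intro a ha
      rw [LinearMap.comp_apply, LinearMap.comp_apply]
      apply hξ
      have h8 : cj N (h * y) a ∈ Fil p N (d + 1) := Fil_le hdK (cj_Fil N _ _ ha)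
      have h9 := Fil_mul (p := p) (B := N) (d + 1) 0
      rw [Nat.add_zero] at h9
      refine h9 (Submodule.mul_mem_mul h8 ?_)
      rw [Fil_zero]; trivial
  | zero => rw [map_zero, sub_zero]; exact Submodule.zero_mem _
  | add x y _ _ hx hy =>
    rw [map_add, add_sub_add_comm]; exact Submodule.add_mem _ hx hy
  | smul a x _ hx =>
    rw [map_smul, ← smul_sub]; exact Submodule.smul_mem _ _ hx

end

end Pool.Agent.Helper43.DC
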