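import Pool.Agent.Helper43.DC.Step

/-!
# DC-3: the chain

`G / N` is a product of cyclic groups. `Th ℓ` is the function obtained from the function `j` on `N`
by adding the cyclic factors of the list `ℓ`.
-/

set_option autoImplicit false
set_option linter.unusedSectionVars false

namespace Pool.Agent.Helper43.DC

open Finset Pool.Agent.Helper27.BE
open Pool.Agent.Helper76.BE (Fil_zero Fil_anti Fil_mul)

section
variable {p : ℕ} [Fact p.Prime] {G : Type} [Group G] (N : Subgroup G) [N.Normal]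
  {ι : Type} (n : ι → ℕ) (π : G →* ((i : ι) → Multiplicative (ZMod (n i)))) (x : ι → G)

open Classical in
variable (p) in
/-- the function `j` on `N`, zero outside -/
noncomputable def Th0 (g : G) : MonoidAlgebra (ZMod p) N :=
  if h : g ∈ N then MonoidAlgebra.of (ZMod p) N ⟨g, h⟩ else 0

variable (p) in
/-- the function obtained by adding the factors of the list -/
noncomputable def Th : List ι → G → MonoidAlgebra (ZMod p) N
  | [], g => Th0 p N g
  | i :: ℓ, g => ∑ a ∈ range (n i), Th ℓ (g * (x i ^ a)⁻¹)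

/-- the elements whose coordinates outside the list vanish -/
def HH (ℓ : List ι) : Subgroup G where
  carrier := {g | ∀ i, i ∉ ℓ → π g i = 1}
  one_mem' := fun i _ => by rw [map_one]; rfl
  mul_mem' := fun {a b} ha hb i hi => by
    rw [map_mul, Pi.mul_apply, ha i hi, hb i hi, one_mul]
  inv_mem' := fun {a} ha i hi => by
    rw [map_inv, Pi.inv_apply, ha i hi, inv_one]

theorem mem_HH (ℓ : List ι) (g : G) : g ∈ HH n π ℓ ↔ ∀ i, i ∉ ℓ → π g i = 1 := Iff.rfl

theorem Th0_mul (b : N) (u : G) :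
    Th0 p N (b * u) = MonoidAlgebra.of (ZMod p) N b * Th0 p N u := by
  unfold Th0
  by_cases hu : u ∈ N
  · rw [dif_pos hu, dif_pos (N.mul_mem b.2 hu), ← map_mul]
    rfl
  · have h1 : (b : G) * u ∉ N := fun h => hu ((N.mul_mem_cancel_left b.2).mp h)
    rw [dif_neg hu, dif_neg h1, mul_zero]

theorem Th_mul (ℓ : List ι) (b : N) (u : G) :
    Th p N n x ℓ (b * u) = MonoidAlgebra.of (ZMod p) N b * Th p N n x ℓ u := by
  induction ℓ generalizing u with
  | nil => exact Th0_mul N b u
  | cons i ℓ ih =>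
    simp only [Th]
    rw [Finset.mul_sum]
    refine sum_congr rfl fun a _ => ?_
    rw [mul_assoc, ih]

variable (hker : ∀ g, π g = 1 ↔ g ∈ N)
  (hx : ∀ i j, j ≠ i → π (x i) j = 1) (hxi : ∀ i, π (x i) i = Multiplicative.ofAdd 1)

include hker in
theorem N_le_HH (ℓ : List ι) : N ≤ HH n π ℓ := by
  intro g hg i _
  rw [(hker g).mpr hg]; rfl

include hker hx in
theorem Th_support (ℓ : List ι) (g : G) (hg : Th p N n x ℓ g ≠ 0) : g ∈ HH n π ℓ := by
  induction ℓ generalizing g with
  | nil =>
    have : g ∈ N := by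
      by_contra h
      apply hg
      change Th0 p N g = 0
      rw [Th0, dif_neg h]
    exact N_le_HH N n π hker [] this
  | cons i ℓ ih =>
    obtain ⟨a, ha, h1⟩ := Finset.exists_ne_zero_of_sum_ne_zero hg
    have h2 := ih _ h1
    intro j hj
    rw [List.mem_cons, not_or] at hj
    have h3 := h2 j hj.2
    rw [map_mul, map_inv, map_pow, Pi.mul_apply, Pi.inv_apply, Pi.pow_apply, hx i j hj.1, one_pow,
      inv_one, mul_one] at h3
    exact h3

include hker hx hxi in
theorem Th_one (hn : ∀ i, 1 < n i) (ℓ : List ι) (hℓ : ℓ.Nodup) : Th p N n x ℓ 1 = 1 := by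
  induction ℓ with
  | nil =>
    change Th0 p N 1 = 1
    rw [Th0, dif_pos N.one_mem]
    rfl
  | cons i ℓ ih =>
    rw [List.nodup_cons] at hℓ
    simp only [Th]
    rw [Finset.sum_eq_single 0]
    · rw [pow_zero, inv_one, mul_one]
      exact ih hℓ.2
    · intro a ha ha0
      by_contra h
      have h1 := Th_support N n π x hker hx ℓ _ h i hℓ.1
      rw [one_mul, map_inv, map_pow, Pi.inv_apply, Pi.pow_apply, hxi, inv_eq_one, ← ofAdd_nsmul,
        ofAdd_eq_one, nsmul_eq_mul, mul_one] at h1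
      rw [ZMod.natCast_eq_zero_iff] at h1
      have := Nat.le_of_dvd (by omega) h1
      rw [mem_range] at ha
      omega
    · intro h
      exact absurd (mem_range.mpr (by have := hn i; omega)) h

include hker hx hxi in
theorem HH_cons (hn : ∀ i, 1 < n i) (i : ι) (ℓ : List ι) (h : G) (hh : h ∈ HH n π (i :: ℓ)) :
    ∃ b : ℕ, ∃ h0 ∈ HH n π ℓ, h = x i ^ b * h0 := by
  have : NeZero (n i) := ⟨by have := hn i; omega⟩
  refine ⟨(Multiplicative.toAdd (π h i)).val, (x i ^ (Multiplicative.toAdd (π h i)).val)⁻¹ * h, ?_, by group⟩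
  intro j hj
  rw [map_mul, map_inv, map_pow, Pi.mul_apply, Pi.inv_apply, Pi.pow_apply]
  by_cases hji : j = i
  · subst hji
    rw [hxi, ← ofAdd_nsmul, nsmul_eq_mul, mul_one, ZMod.natCast_val, ZMod.cast_id, ofAdd_toAdd,
      inv_mul_cancel]
  · rw [hx i j hji, one_pow, inv_one, one_mul]
    refine hh j ?_
    rw [List.mem_cons, not_or]
    exact ⟨hji, hj⟩

include hker hx hxi in
theorem pow_mem_N (i : ι) : x i ^ n i ∈ N := by
  rw [← hker]
  funext j
  rw [map_pow, Pi.pow_apply]
  by_cases hji : j = i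
  · subst hji
    rw [hxi, ← ofAdd_nsmul, nsmul_eq_mul, ZMod.natCast_self, zero_mul]
    rfl
  · rw [hx i j hji, one_pow]; rfl

include hker in
theorem comm_mem_N (a b : G) : a * b * a⁻¹ * b⁻¹ ∈ N := by
  rw [← hker, map_mul, map_mul, map_mul, map_inv, map_inv, mul_comm (π a) (π b)]
  group

theorem Fd_zero (Θ : G → MonoidAlgebra (ZMod p) N) (H : Subgroup G) : Fd N Θ H 0 = ⊥ := by
  rw [Fd, Submodule.span_eq_bot]
  rintro _ ⟨ξ, hξ, h, _, y, rfl⟩
  funext u
  refine hξ _ ?_
  rw [Fil_zero]; trivial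

/-- the first space -/
theorem finrank_nil [Finite G] {H : Subgroup G} (hH : ∀ h ∈ H, h ∈ N) (d : ℕ) :
    Module.finrank (ZMod p) (Fd N (Th0 p N) H d) ≤ dimQ p N d := by
  have := Fintype.ofFinite G
  obtain ⟨η, e, h1, h2⟩ := exists_coord (p := p) N d
  let F : Fin (dimQ p N d) → (G → ZMod p) := fun k u => η k (Th0 p N u)
  have h3 : Fd N (Th0 p N) H d ≤ Submodule.span (ZMod p) (Set.range F) := by
    rw [Fd, Submodule.span_le]
    rintro _ ⟨ξ, hξ, h, hh, y, rfl⟩
    have h4 : (fun u => ξ (Th0 p N (h * (y * u * y⁻¹)))) = ∑ k,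
        (ξ (MonoidAlgebra.of (ZMod p) N ⟨h, hH h hh⟩ * cj N y (e k))) • F k := by
      funext u
      have h5 : Th0 p N (h * (y * u * y⁻¹)) = MonoidAlgebra.of (ZMod p) N ⟨h, hH h hh⟩ *
          cj N y (Th0 p N u) := by
        have h6 := Th0_mul (p := p) N ⟨h, hH h hh⟩ (y * u * y⁻¹)
        refine h6.trans ?_
        congr 1
        unfold Th0
        by_cases hu : u ∈ N
        · rw [dif_pos hu, dif_pos (Subgroup.Normal.conj_mem inferInstance u hu y), cj_of]
          congr 1
        · have h7 : y * u * y⁻¹ ∉ N := fun h => hu (by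
            have := Subgroup.Normal.conj_mem (H := N) inferInstance _ h y⁻¹
            have h8 : y⁻¹ * (y * u * y⁻¹) * y⁻¹⁻¹ = u := by group
            rwa [h8] at this)
          rw [dif_neg hu, dif_neg h7, map_zero]
      rw [h5, Finset.sum_apply]
      set s := Th0 p N u with hs
      have h6 : MonoidAlgebra.of (ZMod p) N ⟨h, hH h hh⟩ * cj N y (s - ∑ i, η i s • e i) ∈ Fil p N d := by
        have h7 := Fil_mul (p := p) (B := N) 0 d
        rw [Nat.zero_add] at h7
        refine h7 (Submodule.mul_mem_mul ?_ (cj_Fil N y d (h2 s)))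
        rw [Fil_zero]; trivial
      have h7 := hξ _ h6
      rw [map_sub, map_sum, mul_sub, map_sub, sub_eq_zero, Finset.mul_sum, map_sum] at h7
      rw [h7]
      refine Finset.sum_congr rfl fun k _ => ?_
      rw [map_smul, mul_smul_comm, map_smul, Pi.smul_apply, smul_eq_mul, smul_eq_mul, mul_comm]
    change (fun u => ξ (Th0 p N (h * (y * u * y⁻¹)))) ∈ _
    rw [h4]
    exact Submodule.sum_mem _ fun k _ => Submodule.smul_mem _ _ (Submodule.subset_span ⟨k, rfl⟩)
  refine (Submodule.finrank_mono h3).trans ((finrank_range_le_card F).trans ?_)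
  rw [Fintype.card_fin]

include hker hx hxi in
/-- the dimension of the spaces of functions -/
theorem finrank_le [Finite G] (hn : ∀ i, 1 < n i) {K v : ℕ} (hv : ∀ d, d ≤ K → dimQ p N d ≤ v)
    (ℓ : List ι) (d : ℕ) (hd : d ≤ K) :
    Module.finrank (ZMod p) (Fd N (Th p N n x ℓ) (HH n π ℓ) d) ≤
      v * (1 + (ℓ.map n).sum * v ^ 2) ^ d := by
  induction ℓ generalizing d with
  | nil =>
    have h1 : ∀ h ∈ HH n π ([] : List ι), h ∈ N := by
      intro h hh
      rw [← hker]
      funext i
      exact hh i (by simp)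
    have h2 := finrank_nil (p := p) N h1 d
    refine (h2.trans (hv d hd)).trans ?_
    simp
  | cons i ℓ ih =>
    cases d with
    | zero => rw [Fd_zero, finrank_bot]; exact Nat.zero_le _
    | succ d =>
      have h1 := step (N := N) (Θ := Th p N n x ℓ) (Θ' := Th p N n x (i :: ℓ)) (H := HH n π ℓ)
        (H' := HH n π (i :: ℓ)) hd (comm_mem_N N n π hker) (N_le_HH N n π hker ℓ)
        (Th_mul N n x ℓ) (by have := hn i; omega) (pow_mem_N N n π x hker hx hxi i)
        (fun g => rfl) (HH_cons N n π x hker hx hxi hn i ℓ)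
      have h2 := ih (d + 1) hd
      have h3 := ih d (by omega)
      have h4 : dimQ p N K ^ 2 ≤ v ^ 2 := Nat.pow_le_pow_left (hv K le_rfl) 2
      set M := (ℓ.map n).sum with hM
      have h5 : ((i :: ℓ).map n).sum = n i + M := by simp [hM]
      rw [h5]
      set B := (1 + M * v ^ 2) ^ d with hB
      have h6 : (1 + M * v ^ 2) ^ (d + 1) = B * (1 + M * v ^ 2) := by rw [hB, pow_succ]
      have h7 : B * (1 + (n i + M) * v ^ 2) ≤ (1 + (n i + M) * v ^ 2) ^ (d + 1) := by
        rw [pow_succ (1 + (n i + M) * v ^ 2) d]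
        refine Nat.mul_le_mul_right _ ?_
        rw [hB]
        refine Nat.pow_le_pow_left ?_ d
        exact Nat.add_le_add_left (Nat.mul_le_mul_right (v ^ 2) (Nat.le_add_left M (n i))) 1
      calc _ ≤ _ := h1
        _ ≤ v * (B * (1 + M * v ^ 2)) + n i * (v ^ 2 * (v * B)) := by
          rw [h6] at h2
          exact Nat.add_le_add h2 (Nat.mul_le_mul_left _ (Nat.mul_le_mul h4 h3))
        _ = v * (B * (1 + (n i + M) * v ^ 2)) := by ring
        _ ≤ _ := Nat.mul_le_mul_left v h7

end

end Pool.Agent.Helper43.DC
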