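import Pool.Agent.Helper43.DC.Chain

/-!
# DC-4: the faithful representation
-/

set_option autoImplicit false
set_option linter.unusedSectionVars false

namespace Pool.Agent.Helper43.DC

open Finset Pool.Agent.Helper27.BE
open Pool.Agent.Helper76.BE (Fil_zero Fil_anti Fil_mul)
open Pool.Agent.Helper19.BE (faith_of_rep faith_pad)

section
variable {p : ℕ} [Fact p.Prime] {G : Type} [Group G] {ι : Type} [Fintype ι] (n : ι → ℕ)
  (π : G →* ((i : ι) → Multiplicative (ZMod (n i))))

open Classical in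
/-- the indicator functions of the coordinates -/
noncomputable def ind (p : ℕ) (ic : (i : ι) × ZMod (n i)) (u : G) : ZMod p :=
  if π u ic.1 = Multiplicative.ofAdd ic.2 then 1 else 0

/-- the space spanned by the indicator functions of the coordinates -/
noncomputable def Coord (p : ℕ) : Submodule (ZMod p) (G → ZMod p) :=
  Submodule.span (ZMod p) (Set.range (ind n π p))

theorem Lf_Coord (w : G) {f : G → ZMod p} (hf : f ∈ Coord n π p) : Lf p w f ∈ Coord n π p := by
  induction hf using Submodule.span_induction with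
  | mem x hx =>
    obtain ⟨⟨i, c⟩, rfl⟩ := hx
    refine Submodule.subset_span ⟨⟨i, Multiplicative.toAdd ((π w i)⁻¹) + c⟩, ?_⟩
    funext u
    rw [Lf_apply]
    unfold ind
    have h1 : π u i = Multiplicative.ofAdd (Multiplicative.toAdd ((π w i)⁻¹) + c) ↔
        π (w * u) i = Multiplicative.ofAdd c := by
      rw [ofAdd_add, ofAdd_toAdd, map_mul, Pi.mul_apply, ← eq_inv_mul_iff_mul_eq]
    simp only [h1]
  | zero => rw [map_zero]; exact Submodule.zero_mem _
  | add x y _ _ hx hy => rw [map_add]; exact Submodule.add_mem _ hx hy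
  | smul a x _ hx => rw [map_smul]; exact Submodule.smul_mem _ _ hx

theorem finrank_Coord [Finite G] (hn : ∀ i, 1 < n i) :
    Module.finrank (ZMod p) (Coord n π p) ≤ ∑ i, n i := by
  have h0 : ∀ i, NeZero (n i) := fun i => ⟨by have := hn i; omega⟩
  have : ∀ i, Fintype (ZMod (n i)) := fun i => ZMod.fintype (n i)
  refine (finrank_range_le_card _).trans ?_
  rw [Fintype.card_sigma]
  refine le_of_eq (sum_congr rfl fun i _ => ZMod.card _)

/-- the representation on a space of functions stable under left translations -/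
noncomputable def rho (W : Submodule (ZMod p) (G → ZMod p)) (hW : ∀ w, ∀ f ∈ W, Lf p w f ∈ W) :
    G →* (W →ₗ[ZMod p] W) where
  toFun g := (Lf p g⁻¹).restrict (hW g⁻¹)
  map_one' := by
    ext f u
    simp [Lf_apply]
  map_mul' g h := by
    ext f u
    simp [Lf_apply, mul_assoc]

theorem faith_space [Finite G] (W : Submodule (ZMod p) (G → ZMod p)) (hW : ∀ w, ∀ f ∈ W, Lf p w f ∈ W)
    (h : ∀ g : G, (∀ f ∈ W, ∀ u, f (g⁻¹ * u) = f u) → g = 1) : Faith p (Module.finrank (ZMod p) W) G := by
  have := Fintype.ofFinite G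
  refine faith_of_rep (rho W hW) fun g hg => h g fun f hf u => ?_
  have h1 := LinearMap.congr_fun hg ⟨f, hf⟩
  have h2 := congrArg Subtype.val h1
  exact congrFun h2 u

theorem faith_der [Finite G] (N : Subgroup G) [N.Normal] (x : ι → G)
    (hker : ∀ g, π g = 1 ↔ g ∈ N)
    (hx : ∀ i j, j ≠ i → π (x i) j = 1) (hxi : ∀ i, π (x i) i = Multiplicative.ofAdd 1)
    (hn : ∀ i, 1 < n i) {K v : ℕ} (hv : ∀ d, d ≤ K → dimQ p N d ≤ v)
    (hK : ∀ g : N, dlt p N g ∈ Fil p N K → g = 1) :
    Faith p (v * (1 + (∑ i, n i) * v ^ 2) ^ K + ∑ i, n i) G := by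
  have := Fintype.ofFinite G
  set ℓ : List ι := (univ : Finset ι).toList with hℓ
  have hmem : ∀ i, i ∈ ℓ := fun i => by rw [hℓ, mem_toList]; exact mem_univ i
  have hnod : ℓ.Nodup := nodup_toList _
  have hsum : (ℓ.map n).sum = ∑ i, n i := by
    rw [hℓ]
    exact Finset.sum_map_toList _ _
  have htop : ∀ g, g ∈ HH n π ℓ := fun g i hi => absurd (hmem i) hi
  have hone : Th p N n x ℓ 1 = 1 := Th_one N n π x hker hx hxi hn ℓ hnod
  set W := Fd N (Th p N n x ℓ) (HH n π ℓ) K ⊔ Coord n π p with hW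
  have hstab : ∀ w, ∀ f ∈ W, Lf p w f ∈ W := by
    intro w f hf
    rw [hW, Submodule.mem_sup] at hf ⊢
    obtain ⟨f1, h1, f2, h2, rfl⟩ := hf
    exact ⟨_, Lf_Fd N (comm_mem_N N n π hker) (N_le_HH N n π hker ℓ) (htop w) h1, _,
      Lf_Coord n π w h2, (map_add _ _ _).symm⟩
  have hdim : Module.finrank (ZMod p) W ≤ v * (1 + (∑ i, n i) * v ^ 2) ^ K + ∑ i, n i := by
    refine (Submodule.finrank_add_le_finrank_add_finrank _ _).trans (Nat.add_le_add ?_
      (finrank_Coord n π hn))
    rw [← hsum]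
    exact finrank_le N n π x hker hx hxi hn hv ℓ K le_rfl
  refine faith_pad (faith_space W hstab ?_) hdim
  intro g hg
  have hgN : g ∈ N := by
    rw [← hker]
    funext i
    have h1 := hg (ind n π p ⟨i, 0⟩) (Submodule.mem_sup_right (Submodule.subset_span ⟨_, rfl⟩)) g
    rw [inv_mul_cancel] at h1
    unfold ind at h1
    rw [map_one, Pi.one_apply, ofAdd_zero, if_pos rfl] at h1
    split_ifs at h1 with h2
    · exact h2
    · exact absurd h1 one_ne_zero
  obtain ⟨η, e, h1, h2⟩ := exists_coord (p := p) N K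
  set b : N := ⟨g, hgN⟩ with hb
  have h3 : dlt p N b⁻¹ ∈ Fil p N K := by
    have h4 := h2 (dlt p N b⁻¹)
    rw [Finset.sum_eq_zero, sub_zero] at h4
    · exact h4
    · intro k _
      have h5 := hg (fun u => η k (Th p N n x ℓ u)) (Submodule.mem_sup_left (Submodule.subset_span
        ⟨η k, h1 k, 1, Subgroup.one_mem _, 1, by funext u; simp⟩)) 1
      have h6 : Th p N n x ℓ (g⁻¹ * 1) = MonoidAlgebra.of (ZMod p) N b⁻¹ * 1 := by
        have := Th_mul (p := p) N n x ℓ b⁻¹ 1
        rw [hone] at this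
        exact this
      rw [h6, hone, mul_one] at h5
      rw [dlt, map_sub, h5, sub_self, zero_smul]
  have h4 := hK _ h3
  rw [inv_eq_one] at h4
  exact congrArg Subtype.val h4

end

end Pool.Agent.Helper43.DC
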