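import Pool.Agent.Helper43.DC.Faithful

/-!
# DC-5: the main theorem
-/

set_option autoImplicit false
set_option linter.unusedSectionVars false

namespace Pool.Agent.Helper43.DC

open Finset Pool.Agent.Helper27.BE
open Pool.Agent.Helper19.BE (faith_pad)

/-- a group of order `p ^ n` and exponent `p ^ e` whose commutator subgroup has class at most `c` has a
faithful representation of small dimension -/
theorem faith_group {p : ℕ} [hp : Fact p.Prime] {G : Type} [Group G] {n c e : ℕ}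
    (hG : Nat.card G = p ^ n) (hexp : ∀ x : G, x ^ p ^ e = 1)
    (hc : Subgroup.lowerCentralSeries (⊤ : Subgroup (commutator G)) c = ⊥) :
    Faith p ((n + (c * p ^ (e - 1) + 1)).choose (c * p ^ (e - 1) + 1) * (1 + (n * p ^ e) *
      (n + (c * p ^ (e - 1) + 1)).choose (c * p ^ (e - 1) + 1) ^ 2) ^ (c * p ^ (e - 1) + 1) +
        n * p ^ e) G := by
  classical
  have hfin : Finite G := Nat.finite_of_card_ne_zero (by rw [hG]; exact pow_ne_zero _ hp.out.ne_zero)
  set K := c * p ^ (e - 1) + 1 with hK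
  set v := (n + K).choose K with hv
  set N : Subgroup G := commutator G with hN
  obtain ⟨m, hmn, hm⟩ : ∃ m ≤ n, Nat.card N = p ^ m := by
    have h1 : Nat.card N ∣ p ^ n := by rw [← hG]; exact Subgroup.card_subgroup_dvd_card N
    exact (Nat.dvd_prime_pow hp.out).mp h1
  have hexpN : ∀ x : N, x ^ p ^ e = 1 := fun x => Subtype.ext (hexp x)
  obtain ⟨hj1, hj2⟩ := jennings hm hexpN (c := c) hc
  obtain ⟨ι, _, nn, hn, ⟨φ⟩⟩ := CommGroup.equiv_prod_multiplicative_zmod_of_finite (Abelianization G)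
  let π : G →* ((i : ι) → Multiplicative (ZMod (nn i))) := φ.toMonoidHom.comp Abelianization.of
  have hker : ∀ g, π g = 1 ↔ g ∈ N := by
    intro g
    change φ (Abelianization.of g) = 1 ↔ _
    rw [map_eq_one_iff φ φ.injective, ← MonoidHom.mem_ker, Abelianization.ker_of]
  have hsurj : ∀ w, ∃ g, π g = w := by
    intro w
    obtain ⟨g, hg⟩ := QuotientGroup.mk_surjective (φ.symm w)
    refine ⟨g, ?_⟩
    change φ (QuotientGroup.mk g) = w
    rw [hg]
    exact φ.apply_symm_apply w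
  choose x hx using fun i => hsurj (Pi.mulSingle i (Multiplicative.ofAdd 1))
  have hx1 : ∀ i j, j ≠ i → π (x i) j = 1 := fun i j hij => by
    rw [hx, Pi.mulSingle_eq_of_ne hij]
  have hx2 : ∀ i, π (x i) i = Multiplicative.ofAdd 1 := fun i => by
    rw [hx, Pi.mulSingle_eq_same]
  have hdvd : ∀ i, nn i ∣ p ^ e := by
    intro i
    have h1 : π (x i ^ p ^ e) i = 1 := by rw [hexp, map_one]; rfl
    rw [map_pow, Pi.pow_apply, hx2, ← ofAdd_nsmul, ofAdd_eq_one, nsmul_eq_mul, mul_one] at h1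
    exact (ZMod.natCast_eq_zero_iff _ _).mp h1
  have hle : ∀ i, nn i ≤ p ^ e := fun i => Nat.le_of_dvd (pow_pos hp.out.pos _) (hdvd i)
  have hpl : ∀ i, p ≤ nn i := by
    intro i
    obtain ⟨k, -, hk⟩ := (Nat.dvd_prime_pow hp.out).mp (hdvd i)
    have hk0 : k ≠ 0 := by
      rintro rfl
      have := hn i
      rw [hk] at this
      simp at this
    rw [hk]
    exact Nat.le_self_pow hk0 p
  have hcard : Fintype.card ι ≤ n := by
    have h1 : Nat.card (Abelianization G) = ∏ i, nn i := by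
      rw [Nat.card_congr φ.toEquiv, Nat.card_pi]
      refine prod_congr rfl fun i _ => ?_
      exact Nat.card_zmod (nn i)
    have h2 : Nat.card (Abelianization G) ≤ p ^ n := by
      rw [← hG]
      exact Nat.card_le_card_of_surjective _ QuotientGroup.mk_surjective
    have h3 : p ^ Fintype.card ι ≤ ∏ i, nn i := by
      rw [← card_univ, ← prod_const]
      exact prod_le_prod' fun i _ => hpl i
    rw [← h1] at h3
    exact (Nat.pow_le_pow_iff_right hp.out.one_lt).mp (h3.trans h2)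
  have hsum : ∑ i, nn i ≤ n * p ^ e := by
    refine (sum_le_card_nsmul univ nn (p ^ e) fun i _ => hle i).trans ?_
    rw [smul_eq_mul, card_univ]
    exact Nat.mul_le_mul_right _ hcard
  have hdim : ∀ d, d ≤ K → dimQ p N d ≤ v := by
    intro d hd
    refine (hj2 d).trans ?_
    calc (m + d).choose d ≤ (n + d).choose d := Nat.choose_le_choose d (by omega)
      _ = (n + d).choose n := Nat.choose_symm_add.symm
      _ ≤ (n + K).choose n := Nat.choose_le_choose n (by omega)
      _ = v := Nat.choose_symm_add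
  refine faith_pad (faith_der nn π N x hker hx1 hx2 hn hdim hj1) ?_
  refine Nat.add_le_add (Nat.mul_le_mul_left _ (Nat.pow_le_pow_left ?_ K)) hsum
  exact Nat.add_le_add_left (Nat.mul_le_mul_right _ hsum) 1

/-- the estimate of the dimension -/
theorem dim_le (q n K : ℕ) (hK : 1 ≤ K) :
    (n + K).choose K * (1 + (n * q) * (n + K).choose K ^ 2) ^ K + n * q ≤
      ((K + 1) ^ K * (1 + q * ((K + 1) ^ K) ^ 2) ^ K + q) * (n + 1) ^ (2 * K * (K + 1)) := by
  set t := n + 1 with ht
  set a := (K + 1) ^ K with ha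
  have ht1 : 1 ≤ t := by omega
  have hv : (n + K).choose K ≤ a * t ^ K := by
    refine (Nat.choose_le_pow _ _).trans ?_
    rw [ha, ← mul_pow]
    refine Nat.pow_le_pow_left ?_ K
    rw [ht]
    nlinarith
  set v := (n + K).choose K with hvdef
  have h1 : 1 + (n * q) * v ^ 2 ≤ (1 + q * a ^ 2) * t ^ (2 * K + 1) := by
    have h2 : 1 ≤ t ^ (2 * K + 1) := Nat.one_le_pow _ _ ht1
    have h3 : v ^ 2 ≤ a ^ 2 * t ^ (2 * K) := by
      calc v ^ 2 ≤ (a * t ^ K) ^ 2 := Nat.pow_le_pow_left hv 2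
        _ = a ^ 2 * t ^ (2 * K) := by rw [mul_pow, ← pow_mul]; ring
    calc 1 + (n * q) * v ^ 2 ≤ t ^ (2 * K + 1) + (t * q) * (a ^ 2 * t ^ (2 * K)) :=
          Nat.add_le_add h2 (Nat.mul_le_mul (Nat.mul_le_mul_right q (by omega)) h3)
      _ = (1 + q * a ^ 2) * t ^ (2 * K + 1) := by ring
  have h4 : v * (1 + (n * q) * v ^ 2) ^ K ≤ (a * (1 + q * a ^ 2) ^ K) * t ^ (2 * K * (K + 1)) := by
    calc v * (1 + (n * q) * v ^ 2) ^ K ≤ (a * t ^ K) * ((1 + q * a ^ 2) * t ^ (2 * K + 1)) ^ K :=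
          Nat.mul_le_mul hv (Nat.pow_le_pow_left h1 K)
      _ = (a * (1 + q * a ^ 2) ^ K) * t ^ (K + (2 * K + 1) * K) := by
          rw [mul_pow, ← pow_mul, pow_add]; ring_nf
      _ = (a * (1 + q * a ^ 2) ^ K) * t ^ (2 * K * (K + 1)) := by
          rw [show K + (2 * K + 1) * K = 2 * K * (K + 1) by ring]
  have h5 : n * q ≤ q * t ^ (2 * K * (K + 1)) := by
    rw [mul_comm]
    refine Nat.mul_le_mul_left q ?_
    calc n ≤ t ^ 1 := by rw [pow_one]; omega
      _ ≤ t ^ (2 * K * (K + 1)) := Nat.pow_le_pow_right ht1 (by nlinarith)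
  rw [add_mul]
  exact Nat.add_le_add h4 h5

/-- some group of order `p ^ m` contains a copy of every group of order `p ^ n` and exponent dividing
`p ^ e` whose commutator subgroup has class at most `c` -/
def UniversalDer (p c e n m : ℕ) : Prop :=
  ∃ (U : Type) (_ : Group U), Nat.card U = p ^ m ∧
    ∀ (P : Type) [Group P], Nat.card P = p ^ n → (∀ x : P, x ^ p ^ e = 1) →
      Subgroup.lowerCentralSeries (⊤ : Subgroup (commutator P)) c = ⊥ →
        ∃ φ : P →* U, Function.Injective φ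

theorem main {p : ℕ} (hp : p.Prime) (c e : ℕ) : ∃ C : ℕ, ∀ n : ℕ,
    ∃ m ≤ C * (n + 1) ^ (4 * (c * p ^ (e - 1) + 1) * (c * p ^ (e - 1) + 2)),
      UniversalDer p c e n m := by
  have : Fact p.Prime := ⟨hp⟩
  set K := c * p ^ (e - 1) + 1 with hK
  refine ⟨((K + 1) ^ K * (1 + p ^ e * ((K + 1) ^ K) ^ 2) ^ K + p ^ e) ^ 2, fun n => ?_⟩
  obtain ⟨U, hU, M, h1, h2, h3⟩ := exists_universal p
    (((K + 1) ^ K * (1 + p ^ e * ((K + 1) ^ K) ^ 2) ^ K + p ^ e) * (n + 1) ^ (2 * K * (K + 1)))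
  refine ⟨M, h2.trans (le_of_eq ?_), U, hU, h1, ?_⟩
  · have h4 : c * p ^ (e - 1) + 2 = K + 1 := by rw [hK]
    rw [h4, mul_pow _ ((n + 1) ^ (2 * K * (K + 1))), ← pow_mul (n + 1),
      show 2 * K * (K + 1) * 2 = 4 * K * (K + 1) by ring]
  · intro P _ hP hexp hc
    exact h3 P n hP (faith_pad (faith_group hP hexp hc) (dim_le (p ^ e) n K (by omega)))

end Pool.Agent.Helper43.DC
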