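import Pool.Agent.Helper43.DC.Basic

/-!
# DC-2: one step

`Θ'` is obtained from `Θ` by adding a cyclic factor generated by `x`, with `x ^ m ∈ N`.
-/

set_option autoImplicit false
set_option linter.unusedSectionVars false

namespace Pool.Agent.Helper43.DC

open Finset Pool.Agent.Helper27.BE
open Pool.Agent.Helper76.BE (Fil_zero Fil_anti Fil_mul)

section
variable {p : ℕ} [Fact p.Prime] {G : Type} [Group G] (N : Subgroup G) [N.Normal]

/-- the sum of the translates by the powers of `x` -/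
def Ext (p : ℕ) {G : Type} [Group G] (x : G) (m : ℕ) : (G → ZMod p) →ₗ[ZMod p] (G → ZMod p) :=
  ∑ a ∈ range m, Rf p (x ^ a)⁻¹

theorem Ext_apply (x : G) (m : ℕ) (f : G → ZMod p) :
    Ext p x m f = ∑ a ∈ range m, Rf p (x ^ a)⁻¹ f := by
  rw [Ext, LinearMap.sum_apply]

/-- the space which contains the new functions -/
def Tsp (x : G) (m : ℕ) (S E : Submodule (ZMod p) (G → ZMod p)) :
    Submodule (ZMod p) (G → ZMod p) :=
  S.map (Ext p x m) ⊔ (range m).sup (fun a => E.map (Rf p (x ^ a)⁻¹))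

theorem mem_sup {m a : ℕ} (ha : a < m) {E : ℕ → Submodule (ZMod p) (G → ZMod p)} {f : G → ZMod p}
    (hf : f ∈ E a) : f ∈ (range m).sup E :=
  (Finset.le_sup (f := E) (mem_range.mpr ha)) hf

theorem sup_stable {m : ℕ} {E : ℕ → Submodule (ZMod p) (G → ZMod p)}
    (T : Submodule (ZMod p) (G → ZMod p)) (φ : (G → ZMod p) →ₗ[ZMod p] (G → ZMod p))
    (h : ∀ a < m, ∀ f ∈ E a, φ f ∈ T) : ∀ f ∈ (range m).sup E, φ f ∈ T := by
  have : (range m).sup E ≤ T.comap φ := by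
    refine Finset.sup_le fun a ha => ?_
    intro f hf
    exact h a (mem_range.mp ha) f hf
  exact this

theorem finrank_sup_le [Finite G] (m : ℕ) (E : ℕ → Submodule (ZMod p) (G → ZMod p)) :
    Module.finrank (ZMod p) ((range m).sup E : Submodule (ZMod p) (G → ZMod p)) ≤
      ∑ a ∈ range m, Module.finrank (ZMod p) (E a) := by
  have := Fintype.ofFinite G
  induction m with
  | zero => rw [range_zero, sup_empty, finrank_bot]; exact Nat.zero_le _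
  | succ m ih =>
    rw [range_add_one, sup_insert, sum_insert notMem_range_self]
    exact (Submodule.finrank_add_le_finrank_add_finrank _ _).trans (by omega)

theorem finrank_Tsp [Finite G] (x : G) (m : ℕ) (S E : Submodule (ZMod p) (G → ZMod p)) :
    Module.finrank (ZMod p) (Tsp x m S E) ≤
      Module.finrank (ZMod p) S + m * Module.finrank (ZMod p) E := by
  have := Fintype.ofFinite G
  refine (Submodule.finrank_add_le_finrank_add_finrank _ _).trans ?_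
  refine Nat.add_le_add (Submodule.finrank_map_le _ _) ?_
  refine (finrank_sup_le m _).trans ?_
  refine (Finset.sum_le_sum fun a _ => Submodule.finrank_map_le _ _).trans ?_
  rw [sum_const, card_range, smul_eq_mul]

/-! ### Commutation rules -/

theorem Rf_mul (v w : G) (f : G → ZMod p) : Rf p v (Rf p w f) = Rf p (v * w) f := by
  funext u
  simp only [Rf_apply, mul_assoc]

theorem Lf_Rf (v w : G) (f : G → ZMod p) : Lf p v (Rf p w f) = Rf p w (Lf p v f) := by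
  funext u
  simp only [Rf_apply, Lf_apply, mul_assoc]

theorem Lf_mul (v w : G) (f : G → ZMod p) : Lf p (v * w) f = Lf p w (Lf p v f) := by
  funext u
  simp only [Lf_apply, mul_assoc]

theorem Lf_eq (x : G) (f : G → ZMod p) : Lf p x f = Rf p x (Cf p x f) := by
  funext u
  rw [Rf_apply, Cf_apply, Lf_apply]
  congr 1
  group

/-- `C_y R_w = R_w R_n C_y` with a commutator `n` -/
theorem Cf_Rf (y w : G) (f : G → ZMod p) :
    Cf p y (Rf p w f) = Rf p w (Rf p (w⁻¹ * y⁻¹ * w * y) (Cf p y f)) := by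
  funext u
  simp only [Rf_apply, Cf_apply]
  congr 1
  group

/-- `L_x R (x ^ (a + 1))⁻¹ = R (x ^ a)⁻¹ C_x` -/
theorem Lf_Rf_succ (x : G) (a : ℕ) (f : G → ZMod p) :
    Lf p x (Rf p (x ^ (a + 1))⁻¹ f) = Rf p (x ^ a)⁻¹ (Cf p x f) := by
  rw [Lf_Rf, Lf_eq, Rf_mul]
  congr 2
  rw [pow_succ']
  group

/-- the overflow -/
theorem Lf_Rf_zero (x : G) {m : ℕ} (hm : 0 < m) (f : G → ZMod p) :
    Lf p x (Rf p (x ^ 0)⁻¹ f) = Rf p (x ^ (m - 1))⁻¹ (Rf p (x ^ m) (Cf p x f)) := by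
  rw [Lf_Rf, Lf_eq, Rf_mul, Rf_mul]
  congr 2
  obtain ⟨k, rfl⟩ : ∃ k, m = k + 1 := ⟨m - 1, by omega⟩
  rw [Nat.add_sub_cancel, pow_succ]
  group

variable {N}

/-- the new space is stable under conjugations -/
theorem Cf_Tsp {x : G} {m : ℕ} {S E : Submodule (ZMod p) (G → ZMod p)}
    (hN : ∀ a b : G, a * b * a⁻¹ * b⁻¹ ∈ N)
    (hSC : ∀ y, ∀ f ∈ S, Cf p y f ∈ S) (hkey : ∀ n ∈ N, ∀ f ∈ S, Rf p n f - f ∈ E)
    (hEC : ∀ y, ∀ f ∈ E, Cf p y f ∈ E) (hER : ∀ n ∈ N, ∀ f ∈ E, Rf p n f ∈ E)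
    (y : G) {f : G → ZMod p} (hf : f ∈ Tsp x m S E) : Cf p y f ∈ Tsp x m S E := by
  have hn : ∀ a : ℕ, ((x ^ a)⁻¹)⁻¹ * y⁻¹ * (x ^ a)⁻¹ * y ∈ N := by
    intro a
    have := hN (x ^ a) y⁻¹
    simpa using this
  rw [Tsp, Submodule.mem_sup] at hf
  obtain ⟨_, ⟨g, hg, rfl⟩, f2, hf2, rfl⟩ := hf
  rw [map_add]
  refine Submodule.add_mem _ ?_ ?_
  · have h1 : Cf p y (Ext p x m g) = Ext p x m (Cf p y g) + ∑ a ∈ range m, Rf p (x ^ a)⁻¹
        (Rf p (((x ^ a)⁻¹)⁻¹ * y⁻¹ * (x ^ a)⁻¹ * y) (Cf p y g) - Cf p y g) := by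
      rw [Ext_apply, Ext_apply, map_sum, ← sum_add_distrib]
      refine sum_congr rfl fun a _ => ?_
      rw [Cf_Rf, map_sub]
      abel
    rw [h1]
    refine Submodule.add_mem _ (Submodule.mem_sup_left ⟨_, hSC y g hg, rfl⟩) ?_
    refine Submodule.mem_sup_right (Submodule.sum_mem _ fun a ha => ?_)
    exact mem_sup (E := fun a => E.map (Rf p (x ^ a)⁻¹)) (mem_range.mp ha)
      ⟨_, hkey _ (hn a) _ (hSC y g hg), rfl⟩
  · refine Submodule.mem_sup_right ?_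
    refine sup_stable _ _ ?_ f2 hf2
    rintro a ha _ ⟨g2, hg2, rfl⟩
    rw [Cf_Rf]
    exact mem_sup (E := fun a => E.map (Rf p (x ^ a)⁻¹)) ha ⟨_, hER _ (hn a) _ (hEC y _ hg2), rfl⟩

/-- the new space is stable under left translation by `x` -/
theorem Lfx_Tsp {x : G} {m : ℕ} (hm : 0 < m) (hxm : x ^ m ∈ N) {S E : Submodule (ZMod p) (G → ZMod p)}
    (hSC : ∀ y, ∀ f ∈ S, Cf p y f ∈ S) (hkey : ∀ n ∈ N, ∀ f ∈ S, Rf p n f - f ∈ E)
    (hEC : ∀ y, ∀ f ∈ E, Cf p y f ∈ E) (hER : ∀ n ∈ N, ∀ f ∈ E, Rf p n f ∈ E)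
    {f : G → ZMod p} (hf : f ∈ Tsp x m S E) : Lf p x f ∈ Tsp x m S E := by
  rw [Tsp, Submodule.mem_sup] at hf
  obtain ⟨_, ⟨g, hg, rfl⟩, f2, hf2, rfl⟩ := hf
  rw [map_add]
  refine Submodule.add_mem _ ?_ ?_
  · have h1 : Lf p x (Ext p x m g) = Ext p x m (Cf p x g) + Rf p (x ^ (m - 1))⁻¹
        (Rf p (x ^ m) (Cf p x g) - Cf p x g) := by
      rw [Ext_apply, Ext_apply, map_sum]
      obtain ⟨k, rfl⟩ : ∃ k, m = k + 1 := ⟨m - 1, by omega⟩
      rw [sum_range_succ', sum_range_succ, map_sub]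
      have h2 : ∀ a ∈ range k, Lf p x (Rf p (x ^ (a + 1))⁻¹ g) = Rf p (x ^ a)⁻¹ (Cf p x g) :=
        fun a _ => Lf_Rf_succ x a g
      rw [sum_congr rfl h2, Lf_Rf_zero x hm g, Nat.add_sub_cancel]
      abel
    rw [h1]
    refine Submodule.add_mem _ (Submodule.mem_sup_left ⟨_, hSC x g hg, rfl⟩) ?_
    refine Submodule.mem_sup_right ?_
    exact mem_sup (E := fun a => E.map (Rf p (x ^ a)⁻¹)) (Nat.sub_lt hm one_pos)
      ⟨_, hkey _ hxm _ (hSC x g hg), rfl⟩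
  · refine Submodule.mem_sup_right ?_
    refine sup_stable _ _ ?_ f2 hf2
    rintro a ha _ ⟨g2, hg2, rfl⟩
    rcases Nat.eq_zero_or_pos a with h0 | h0
    · subst h0
      rw [Lf_Rf_zero x hm]
      exact mem_sup (E := fun a => E.map (Rf p (x ^ a)⁻¹)) (Nat.sub_lt hm one_pos)
        ⟨_, hER _ hxm _ (hEC x _ hg2), rfl⟩
    · obtain ⟨b, rfl⟩ : ∃ b, a = b + 1 := ⟨a - 1, by omega⟩
      rw [Lf_Rf_succ]
      exact mem_sup (E := fun a => E.map (Rf p (x ^ a)⁻¹)) (show b < m by omega)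
        ⟨_, hEC x _ hg2, rfl⟩

/-- the new space is stable under left translations by the old elements -/
theorem Lf_Tsp {x : G} {m : ℕ} {S E : Submodule (ZMod p) (G → ZMod p)} {h : G}
    (hS : ∀ f ∈ S, Lf p h f ∈ S) (hE : ∀ f ∈ E, Lf p h f ∈ E)
    {f : G → ZMod p} (hf : f ∈ Tsp x m S E) : Lf p h f ∈ Tsp x m S E := by
  rw [Tsp, Submodule.mem_sup] at hf
  obtain ⟨_, ⟨g, hg, rfl⟩, f2, hf2, rfl⟩ := hf
  rw [map_add]
  refine Submodule.add_mem _ ?_ ?_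
  · refine Submodule.mem_sup_left ⟨_, hS g hg, ?_⟩
    rw [Ext_apply, Ext_apply, map_sum]
    exact sum_congr rfl fun a _ => (Lf_Rf _ _ _).symm
  · refine Submodule.mem_sup_right ?_
    refine sup_stable _ _ ?_ f2 hf2
    rintro a ha _ ⟨g2, hg2, rfl⟩
    rw [Lf_Rf]
    exact mem_sup (E := fun a => E.map (Rf p (x ^ a)⁻¹)) ha ⟨_, hE _ hg2, rfl⟩

/-- One step. -/
theorem step [Finite G] {Θ Θ' : G → MonoidAlgebra (ZMod p) N} {H H' : Subgroup G} {d K m : ℕ} {x : G}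
    (hdK : d + 1 ≤ K) (hN : ∀ a b : G, a * b * a⁻¹ * b⁻¹ ∈ N) (hNH : N ≤ H)
    (hΘ : ∀ (b : N) (u : G), Θ (b * u) = MonoidAlgebra.of (ZMod p) N b * Θ u)
    (hm : 0 < m) (hxm : x ^ m ∈ N)
    (hΘ' : ∀ g, Θ' g = ∑ a ∈ range m, Θ (g * (x ^ a)⁻¹))
    (hH' : ∀ h ∈ H', ∃ b : ℕ, ∃ h0 ∈ H, h = x ^ b * h0) :
    Module.finrank (ZMod p) (Fd N Θ' H' (d + 1)) ≤ Module.finrank (ZMod p) (Fd N Θ H (d + 1)) +
      m * (dimQ p N K ^ 2 * Module.finrank (ZMod p) (Fd N Θ H d)) := by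
  have := Fintype.ofFinite G
  set S := Fd N Θ H (d + 1) with hS
  set E := Fd N Θ H d * Hon p N K with hE
  have hSC : ∀ y, ∀ f ∈ S, Cf p y f ∈ S := fun y f hf => Cf_Fd N y hf
  have hkey : ∀ n ∈ N, ∀ f ∈ S, Rf p n f - f ∈ E := fun n hn f hf => key N hdK hΘ hn hf
  have hEC : ∀ y, ∀ f ∈ E, Cf p y f ∈ E := fun y f hf =>
    mul_stable _ (fun f hf => Cf_Fd N y hf) (fun f hf => Cf_Hon N y hf) hf
  have hER : ∀ n ∈ N, ∀ f ∈ E, Rf p n f ∈ E := fun n hn f hf =>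
    mul_stable _ (fun f hf => Rf_Fd N hN hNH (hNH hn) hf) (fun f hf => Rf_Hon N n hf) hf
  have hle : Fd N Θ' H' (d + 1) ≤ Tsp x m S E := by
    rw [Fd, Submodule.span_le]
    rintro _ ⟨ξ, hξ, h, hh, y, rfl⟩
    have h0 : (fun u => ξ (Θ' u)) ∈ Tsp x m S E := by
      refine Submodule.mem_sup_left ⟨fun u => ξ (Θ u), ?_, ?_⟩
      · refine Submodule.subset_span ⟨ξ, hξ, 1, H.one_mem, 1, ?_⟩
        funext u
        simp
      · rw [Ext_apply]
        funext u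
        rw [Finset.sum_apply, hΘ', map_sum]
        rfl
    have h1 : (fun u => ξ (Θ' (h * (y * u * y⁻¹)))) = Cf p y (Lf p h (fun u => ξ (Θ' u))) := rfl
    change (fun u => ξ (Θ' (h * (y * u * y⁻¹)))) ∈ _
    rw [h1]
    refine Cf_Tsp hN hSC hkey hEC hER y ?_
    obtain ⟨b, h', hh', rfl⟩ := hH' h hh
    rw [Lf_mul]
    refine Lf_Tsp (fun f hf => Lf_Fd N hN hNH hh' hf) (fun f hf => mul_stable _
      (fun f hf => Lf_Fd N hN hNH hh' hf) (fun f hf => Lf_Hon N h' hf) hf) ?_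
    clear hh h1
    induction b with
    | zero =>
      have : Lf p (x ^ 0) (fun u => ξ (Θ' u)) = (fun u => ξ (Θ' u)) := by
        funext u; rw [Lf_apply, pow_zero, one_mul]
      rw [this]; exact h0
    | succ b ih =>
      rw [pow_succ, Lf_mul]
      exact Lfx_Tsp hm hxm hSC hkey hEC hER ih
  refine (Submodule.finrank_mono hle).trans ((finrank_Tsp x m S E).trans ?_)
  refine Nat.add_le_add_left (Nat.mul_le_mul_left m ?_) _
  rw [mul_comm (dimQ p N K ^ 2)]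
  exact (finrank_mul_le _ _).trans (Nat.mul_le_mul_left _ (finrank_Hon N K))

end

end Pool.Agent.Helper43.DC
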